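import Pool.Agent.Lib.MP_cb27ba_nt.BD.Full
import Pool.Agent.Lib.MP_cb27ba_nt.BD.All

/-!
# MP_cb27ba_nt, project OP: weighted forms of the Fourier inequality and of Erdos-Shapiro
-/

set_option autoImplicit false

namespace MPcb27

open Finset

namespace OP

variable {p : ℕ} [Fact p.Prime]

open Four

theorem parseval_w (A : Finset (ZMod p)) (α : ZMod p → ℂ) :
    ∑ ψ : AddChar (ZMod p) ℂ, ‖∑ a ∈ A, α a * ψ a‖ ^ 2 = (p : ℝ) * ∑ a ∈ A, ‖α a‖ ^ 2 := by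
  have h : ((∑ ψ : AddChar (ZMod p) ℂ, ‖∑ a ∈ A, α a * ψ a‖ ^ 2 : ℝ) : ℂ) =
      (p : ℂ) * ((∑ a ∈ A, ‖α a‖ ^ 2 : ℝ) : ℂ) := by
    push_cast
    have h1 : ∀ ψ : AddChar (ZMod p) ℂ, ((‖∑ a ∈ A, α a * ψ a‖ : ℝ) : ℂ) ^ 2 =
        ∑ a ∈ A, ∑ a' ∈ A, α a * (starRingEnd ℂ) (α a') * ψ (a - a') := by
      intro ψ
      rw [← Complex.mul_conj', map_sum, sum_mul_sum]
      refine sum_congr rfl fun a _ => sum_congr rfl fun a' _ => ?_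
      rw [map_mul, conj_apply, sub_eq_add_neg, AddChar.map_add_eq_mul]
      ring
    simp only [h1]
    rw [sum_comm, mul_sum]
    refine sum_congr rfl fun a ha => ?_
    rw [sum_comm]
    simp only [← mul_sum, orth]
    rw [sum_eq_single a]
    · rw [sub_self, if_pos rfl, Complex.mul_conj']
      ring
    · intro a' _ ha'
      rw [if_neg (sub_ne_zero.mpr ha'.symm), mul_zero]
    · intro h
      exact absurd ha h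
  exact_mod_cast h

/-- the Toeplitz inequality with weights -/
theorem four_w (f : ZMod p → ℂ) (M : ℝ)
    (hM : ∀ ψ : AddChar (ZMod p) ℂ, ‖∑ x, f x * ψ x‖ ≤ M) (A B : Finset (ZMod p))
    (α β : ZMod p → ℂ) :
    ‖∑ a ∈ A, ∑ b ∈ B, α a * β b * f (a - b)‖ ≤
      M * (Real.sqrt (∑ a ∈ A, ‖α a‖ ^ 2) * Real.sqrt (∑ b ∈ B, ‖β b‖ ^ 2)) := by
  have hp : (0 : ℝ) < p := by exact_mod_cast (Fact.out : p.Prime).pos
  have hM0 : 0 ≤ M := (norm_nonneg _).trans (hM 0)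
  have e1 : (p : ℂ) * ∑ a ∈ A, ∑ b ∈ B, α a * β b * f (a - b) =
      ∑ ψ : AddChar (ZMod p) ℂ, (∑ y, f y * ψ y) *
        ((∑ a ∈ A, α a * ψ (-a)) * ∑ b ∈ B, β b * ψ b) := by
    have h1 : ∀ ψ : AddChar (ZMod p) ℂ,
        (∑ y, f y * ψ y) * ((∑ a ∈ A, α a * ψ (-a)) * ∑ b ∈ B, β b * ψ b) =
        ∑ a ∈ A, ∑ b ∈ B, α a * β b * ((∑ y, f y * ψ y) * ψ (-(a - b))) := by
      intro ψ
      rw [sum_mul_sum, mul_sum]
      refine sum_congr rfl fun a _ => ?_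
      rw [mul_sum]
      refine sum_congr rfl fun b _ => ?_
      rw [neg_sub, sub_eq_add_neg, add_comm b, AddChar.map_add_eq_mul]
      ring
    simp only [h1]
    conv_rhs => rw [sum_comm]
    rw [mul_sum]
    refine sum_congr rfl fun a _ => ?_
    conv_rhs => rw [sum_comm]
    rw [mul_sum]
    refine sum_congr rfl fun b _ => ?_
    rw [← mul_sum, inversion]
    ring
  have e2 : ∑ ψ : AddChar (ZMod p) ℂ, ‖∑ a ∈ A, α a * ψ (-a)‖ ^ 2 =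
      (p : ℝ) * ∑ a ∈ A, ‖α a‖ ^ 2 := by
    rw [← parseval_w A α]
    refine Fintype.sum_equiv (Equiv.neg (AddChar (ZMod p) ℂ)) _ _ fun ψ => ?_
    rfl
  have e3 : (p : ℝ) * ‖∑ a ∈ A, ∑ b ∈ B, α a * β b * f (a - b)‖ ≤
      M * ∑ ψ : AddChar (ZMod p) ℂ, ‖∑ a ∈ A, α a * ψ (-a)‖ * ‖∑ b ∈ B, β b * ψ b‖ := by
    have h1 : (p : ℝ) * ‖∑ a ∈ A, ∑ b ∈ B, α a * β b * f (a - b)‖ =
        ‖(p : ℂ) * ∑ a ∈ A, ∑ b ∈ B, α a * β b * f (a - b)‖ := by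
      rw [norm_mul, Complex.norm_natCast]
    rw [h1, e1, mul_sum]
    refine (norm_sum_le _ _).trans (sum_le_sum fun ψ _ => ?_)
    rw [norm_mul, norm_mul]
    exact mul_le_mul_of_nonneg_right (hM ψ) (by positivity)
  have e4 : (∑ ψ : AddChar (ZMod p) ℂ, ‖∑ a ∈ A, α a * ψ (-a)‖ * ‖∑ b ∈ B, β b * ψ b‖) ≤
      (p : ℝ) * (Real.sqrt (∑ a ∈ A, ‖α a‖ ^ 2) * Real.sqrt (∑ b ∈ B, ‖β b‖ ^ 2)) := by
    have h2 := sum_mul_sq_le_sq_mul_sq univ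
      (fun ψ : AddChar (ZMod p) ℂ => ‖∑ a ∈ A, α a * ψ (-a)‖)
      (fun ψ => ‖∑ b ∈ B, β b * ψ b‖)
    rw [parseval_w, e2] at h2
    have h3 : 0 ≤ (p : ℝ) *
        (Real.sqrt (∑ a ∈ A, ‖α a‖ ^ 2) * Real.sqrt (∑ b ∈ B, ‖β b‖ ^ 2)) := by positivity
    refine (abs_le_of_sq_le_sq' ?_ h3).2
    rw [mul_pow, mul_pow, Real.sq_sqrt (sum_nonneg fun _ _ => by positivity),
      Real.sq_sqrt (sum_nonneg fun _ _ => by positivity)]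
    refine h2.trans (le_of_eq ?_)
    ring
  have e5 : (p : ℝ) * ‖∑ a ∈ A, ∑ b ∈ B, α a * β b * f (a - b)‖ ≤
      (p : ℝ) * (M * (Real.sqrt (∑ a ∈ A, ‖α a‖ ^ 2) * Real.sqrt (∑ b ∈ B, ‖β b‖ ^ 2))) := by
    refine e3.trans ?_
    have := mul_le_mul_of_nonneg_left e4 hM0
    linarith
  exact le_of_mul_le_mul_left e5 hp

open Pool.Agent.Lib.MPcb27ba in
theorem sum_norm_sq_w (χ : MulChar (ZMod p) ℂ) (hχ : χ ≠ 1) (B : Finset (ZMod p))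
    (β : ZMod p → ℂ) :
    ∑ x, ‖∑ b ∈ B, β b * χ (x - b)‖ ^ 2 ≤ (p : ℝ) * ∑ b ∈ B, ‖β b‖ ^ 2 := by
  have h : ((∑ x, ‖∑ b ∈ B, β b * χ (x - b)‖ ^ 2 : ℝ) : ℂ) =
      (p : ℂ) * ((∑ b ∈ B, ‖β b‖ ^ 2 : ℝ) : ℂ) - ((‖∑ b ∈ B, β b‖ ^ 2 : ℝ) : ℂ) := by
    push_cast
    have h1 : ∀ x : ZMod p, ((‖∑ b ∈ B, β b * χ (x - b)‖ : ℝ) : ℂ) ^ 2 =
        ∑ b ∈ B, ∑ b' ∈ B, β b * (starRingEnd ℂ) (β b') *
          (χ (x - b) * (starRingEnd ℂ) (χ (x - b'))) := by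
      intro x
      rw [← Complex.mul_conj', map_sum, Finset.sum_mul_sum]
      refine sum_congr rfl fun b _ => sum_congr rfl fun b' _ => ?_
      rw [map_mul]
      ring
    simp only [h1]
    rw [← Complex.mul_conj', map_sum, Finset.sum_mul_sum, Finset.sum_comm, mul_sum,
      ← sum_sub_distrib]
    refine sum_congr rfl fun b hb => ?_
    rw [Finset.sum_comm]
    simp only [← mul_sum]
    rw [← Finset.add_sum_erase _ _ hb, sum_char_mul_conj_self]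
    have h5 : β b * ∑ i ∈ B, (starRingEnd ℂ) (β i) = β b * (starRingEnd ℂ) (β b) +
        ∑ b' ∈ B.erase b, β b * (starRingEnd ℂ) (β b') := by
      rw [mul_sum, ← Finset.add_sum_erase _ _ hb]
    have h3 : ∑ b' ∈ B.erase b, β b * (starRingEnd ℂ) (β b') *
        ∑ x, χ (x - b) * (starRingEnd ℂ) (χ (x - b')) =
        - ∑ b' ∈ B.erase b, β b * (starRingEnd ℂ) (β b') := by
      rw [← sum_neg_distrib]
      refine sum_congr rfl fun b' hb' => ?_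
      rw [sum_char_mul_conj χ (Finset.mem_erase.1 hb').1.symm hχ]
      ring
    have h4 : β b * (starRingEnd ℂ) (β b) = ((‖β b‖ : ℝ) : ℂ) ^ 2 := Complex.mul_conj' _
    rw [h3, h5, h4]
    ring
  have h2 : ∑ x, ‖∑ b ∈ B, β b * χ (x - b)‖ ^ 2 =
      (p : ℝ) * (∑ b ∈ B, ‖β b‖ ^ 2) - ‖∑ b ∈ B, β b‖ ^ 2 := by
    exact_mod_cast h
  rw [h2]
  have : 0 ≤ ‖∑ b ∈ B, β b‖ ^ 2 := by positivity
  linarith

/-- Erdos-Shapiro with weights -/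
theorem es_w (χ : MulChar (ZMod p) ℂ) (hχ : χ ≠ 1) (A B : Finset (ZMod p))
    (α β : ZMod p → ℂ) :
    ‖∑ a ∈ A, ∑ b ∈ B, α a * β b * χ (a - b)‖ ≤
      Real.sqrt p * (Real.sqrt (∑ a ∈ A, ‖α a‖ ^ 2) * Real.sqrt (∑ b ∈ B, ‖β b‖ ^ 2)) := by
  have h0 : ∑ a ∈ A, ∑ b ∈ B, α a * β b * χ (a - b) =
      ∑ a ∈ A, α a * ∑ b ∈ B, β b * χ (a - b) := by
    refine sum_congr rfl fun a _ => ?_
    rw [mul_sum]
    exact sum_congr rfl fun b _ => by ring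
  rw [h0]
  have h1 : ‖∑ a ∈ A, α a * ∑ b ∈ B, β b * χ (a - b)‖ ≤
      ∑ a ∈ A, ‖α a‖ * ‖∑ b ∈ B, β b * χ (a - b)‖ :=
    (norm_sum_le _ _).trans (sum_le_sum fun a _ => by rw [norm_mul])
  refine h1.trans ?_
  have h2 := sum_mul_sq_le_sq_mul_sq A (fun a => ‖α a‖) (fun a => ‖∑ b ∈ B, β b * χ (a - b)‖)
  have h3 : ∑ a ∈ A, ‖∑ b ∈ B, β b * χ (a - b)‖ ^ 2 ≤ (p : ℝ) * ∑ b ∈ B, ‖β b‖ ^ 2 :=
    (Finset.sum_le_sum_of_subset_of_nonneg (Finset.subset_univ _)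
      (fun x _ _ => by positivity)).trans (sum_norm_sq_w χ hχ B β)
  have hp : (0 : ℝ) ≤ p := Nat.cast_nonneg _
  have hA0 : 0 ≤ ∑ a ∈ A, ‖α a‖ ^ 2 := sum_nonneg fun _ _ => by positivity
  have h4 : 0 ≤ Real.sqrt p *
      (Real.sqrt (∑ a ∈ A, ‖α a‖ ^ 2) * Real.sqrt (∑ b ∈ B, ‖β b‖ ^ 2)) := by positivity
  refine (abs_le_of_sq_le_sq' ?_ h4).2
  rw [mul_pow, mul_pow, Real.sq_sqrt hp, Real.sq_sqrt hA0,
    Real.sq_sqrt (sum_nonneg fun _ _ => by positivity)]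
  refine h2.trans ?_
  calc (∑ a ∈ A, ‖α a‖ ^ 2) * ∑ a ∈ A, ‖∑ b ∈ B, β b * χ (a - b)‖ ^ 2
      ≤ (∑ a ∈ A, ‖α a‖ ^ 2) * ((p : ℝ) * ∑ b ∈ B, ‖β b‖ ^ 2) :=
        mul_le_mul_of_nonneg_left h3 hA0
    _ = _ := by ring

/-- the trivial bound with weights -/
theorem triv_w (χ : MulChar (ZMod p) ℂ) (A B : Finset (ZMod p)) (α β : ZMod p → ℂ) :
    ‖∑ a ∈ A, ∑ b ∈ B, α a * β b * χ (a - b)‖ ≤
      Real.sqrt ((#A : ℝ) * #B) *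
        (Real.sqrt (∑ a ∈ A, ‖α a‖ ^ 2) * Real.sqrt (∑ b ∈ B, ‖β b‖ ^ 2)) := by
  have h1 : ‖∑ a ∈ A, ∑ b ∈ B, α a * β b * χ (a - b)‖ ≤
      (∑ a ∈ A, ‖α a‖) * ∑ b ∈ B, ‖β b‖ := by
    rw [sum_mul_sum]
    refine (norm_sum_le _ _).trans (sum_le_sum fun a _ => (norm_sum_le _ _).trans
      (sum_le_sum fun b _ => ?_))
    rw [norm_mul, norm_mul]
    have := DirichletCharacter.norm_le_one χ (a - b)
    have h0 : 0 ≤ ‖α a‖ * ‖β b‖ := by positivity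
    nlinarith
  have h2 : ∀ (S : Finset (ZMod p)) (γ : ZMod p → ℂ),
      ∑ a ∈ S, ‖γ a‖ ≤ Real.sqrt (#S : ℝ) * Real.sqrt (∑ a ∈ S, ‖γ a‖ ^ 2) := by
    intro S γ
    have h3 := sum_mul_sq_le_sq_mul_sq S (fun _ => (1 : ℝ)) (fun a => ‖γ a‖)
    simp only [one_mul, one_pow, sum_const, nsmul_eq_mul, mul_one] at h3
    rw [← Real.sqrt_mul (Nat.cast_nonneg _)]
    exact Real.le_sqrt_of_sq_le h3
  refine h1.trans ?_
  rw [Real.sqrt_mul (Nat.cast_nonneg _)]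
  calc (∑ a ∈ A, ‖α a‖) * ∑ b ∈ B, ‖β b‖
      ≤ (Real.sqrt (#A : ℝ) * Real.sqrt (∑ a ∈ A, ‖α a‖ ^ 2)) *
        (Real.sqrt (#B : ℝ) * Real.sqrt (∑ b ∈ B, ‖β b‖ ^ 2)) :=
        mul_le_mul (h2 A α) (h2 B β) (sum_nonneg fun _ _ => norm_nonneg _) (by positivity)
    _ = _ := by ring

end OP

end MPcb27
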